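import Pool.Agent.ISO.StmtsR

/-!
# Squad ISO, block R, row MON: monomials
-/

set_option autoImplicit false

namespace Pool.Agent.ISO.R.H7

open Finset Pool.Agent.Helper6_Mono Pool.Agent.Helper32_OMP Pool.Agent.ISO
open MvPolynomial (C monomial pderiv)

theorem dWord_app {σ : Type} (u v : List σ) (q : MvPolynomial σ ℂ) :
    dWord (u ++ v) q = dWord u (dWord v q) := by
  unfold dWord
  rw [List.foldr_append]

theorem dWord_Cmul {σ : Type} (w : List σ) (c : ℂ) (q : MvPolynomial σ ℂ) :
    dWord w (C c * q) = C c * dWord w q := by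
  induction w with
  | nil => rfl
  | cons i w ih =>
    show pderiv i (dWord w (C c * q)) = C c * pderiv i (dWord w q)
    rw [ih, MvPolynomial.pderiv_C_mul]

/-- the product `(x + 1) ... (x + m)` -/
noncomputable def up (x : ℂ) (m : ℕ) : ℂ := ∏ j ∈ range m, (x + j + 1)

theorem up_succ (x : ℂ) (m : ℕ) : up x (m + 1) = up (x + 1) m * (x + 1) := by
  unfold up
  rw [Finset.prod_range_succ']
  congr 1
  · apply Finset.prod_congr rfl
    intro j _
    push_cast
    ring
  · push_cast
    ring

theorem d_rep {σ : Type} (l : σ) (m : ℕ) : ∀ (γ : σ →₀ ℕ) (c : ℂ),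
    dWord (List.replicate m l) (monomial (γ + Finsupp.single l m) c) =
      monomial γ (c * up (γ l) m) := by
  induction m with
  | zero =>
    intro γ c
    rw [Finsupp.single_zero, add_zero]
    show monomial γ c = _
    unfold up
    rw [Finset.prod_range_zero, mul_one]
  | succ m ih =>
    intro γ c
    have h1 := ih (γ + Finsupp.single l 1) c
    have e1 : γ + Finsupp.single l 1 + Finsupp.single l m = γ + Finsupp.single l (m + 1) := by
      rw [add_assoc, ← Finsupp.single_add, add_comm 1 m]
    rw [e1] at h1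
    rw [List.replicate_succ]
    show pderiv l (dWord (List.replicate m l) (monomial (γ + Finsupp.single l (m + 1)) c)) = _
    rw [h1, MvPolynomial.pderiv_monomial, add_tsub_cancel_right, up_succ]
    congr 1
    rw [Finsupp.add_apply, Finsupp.single_eq_same]
    push_cast
    ring

theorem d_list {σ : Type} (α : σ →₀ ℕ) (L : List σ) (hL : L.Nodup) : ∀ (γ : σ →₀ ℕ) (c : ℂ),
    dWord (L.flatMap fun l => List.replicate (α l) l)
      (monomial (γ + (L.map fun l => Finsupp.single l (α l)).sum) c) =
      monomial γ (c * (L.map fun l => up (γ l) (α l)).prod) := by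
  classical
  induction L with
  | nil =>
    intro γ c
    rw [List.map_nil, List.sum_nil, List.map_nil, List.prod_nil, add_zero, mul_one]
    rfl
  | cons a L ih =>
    intro γ c
    obtain ⟨ha, hL'⟩ := List.nodup_cons.1 hL
    have h1 := ih hL' (γ + Finsupp.single a (α a)) c
    rw [List.flatMap_cons, dWord_app, List.map_cons, List.sum_cons, ← add_assoc, h1, d_rep,
      List.map_cons, List.prod_cons]
    congr 1
    have e1 : (L.map fun l => up (((γ + Finsupp.single a (α a)) l : ℕ) : ℂ) (α l)) =
        L.map fun l => up (γ l) (α l) := by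
      apply List.map_congr_left
      intro l hl
      have hne : a ≠ l := fun h => ha (h ▸ hl)
      rw [Finsupp.add_apply, Finsupp.single_eq_of_ne' hne, add_zero]
    rw [e1]
    ring

theorem up_mul (n a : ℕ) : up ((n * a : ℕ) : ℂ) a =
    (a : ℂ) ^ a * ∏ j ∈ range a, ((n : ℂ) + ((j : ℂ) + 1) / (a : ℂ)) := by
  unfold up
  rcases Nat.eq_zero_or_pos a with rfl | ha
  · simp
  · have ha' : (a : ℂ) ≠ 0 := Nat.cast_ne_zero.2 ha.ne'
    have e : (a : ℂ) ^ a = ∏ _j ∈ range a, (a : ℂ) := by
      rw [Finset.prod_const, Finset.card_range]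
    rw [e, ← Finset.prod_mul_distrib]
    apply Finset.prod_congr rfl
    intro j _
    push_cast
    field_simp
    try ring

/-- **MON**. -/
theorem mon : MonStmt := by
  intro σ _ κ α hκ
  refine ⟨C ((∏ l, (α l : ℂ) ^ α l) * κ), ?_,
    [(1, Finset.univ.toList.flatMap fun l => List.replicate (α l) l)], ?_⟩
  · rw [MvPolynomial.eval_C]
    refine mul_ne_zero (Finset.prod_ne_zero_iff.2 fun l _ => ?_) hκ
    rcases Nat.eq_zero_or_pos (α l) with h | h
    · rw [h, pow_zero]
      exact one_ne_zero
    · exact pow_ne_zero _ (Nat.cast_ne_zero.2 h.ne')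
  · intro n
    have h1 := d_list α (Finset.univ.toList) (Finset.nodup_toList _) (n • α) 1
    rw [Finset.sum_map_toList, Finset.prod_map_toList, Finsupp.univ_sum_single, one_mul] at h1
    have h2 : n • α + α = (n + 1) • α := (succ_nsmul α n).symm
    rw [h2] at h1
    have h3 : (bmf fun l => α l).eval (n : ℂ) * (∏ l, (α l : ℂ) ^ α l) =
        ∏ l, up ((n • α) l : ℕ) (α l) := by
      unfold bmf
      rw [Polynomial.eval_prod, ← Finset.prod_mul_distrib]
      apply Finset.prod_congr rfl
      intro l _
      rw [Finsupp.smul_apply, smul_eq_mul, up_mul, Polynomial.eval_prod, mul_comm]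
      congr 1
      apply Finset.prod_congr rfl
      intro j _
      rw [Polynomial.eval_add, Polynomial.eval_X, Polynomial.eval_C]
    rw [List.map_cons, List.map_nil, List.sum_cons, List.sum_nil, add_zero, Polynomial.eval_one,
      one_mul, mul_pow, mul_pow, ← MvPolynomial.C_pow, ← MvPolynomial.C_pow, dWord_Cmul,
      MvPolynomial.monomial_pow, MvPolynomial.monomial_pow, one_pow, one_pow, h1, ← h3]
    rw [MvPolynomial.C_mul_monomial, MvPolynomial.C_mul_monomial, ← MvPolynomial.C_mul,
      MvPolynomial.C_mul_monomial]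
    congr 1
    ring

end Pool.Agent.ISO.R.H7
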